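import Pool.Agent.Y522.NA.Stm

/-!
Project NA: tubular data of compact manifolds. The retraction is the nearest point map.
-/

set_option autoImplicit false

open Set Filter Topology Metric Function
open scoped Manifold ContDiff RealInnerProductSpace

noncomputable section

namespace Pool.Agent.Y391.NA

open Pool.Agent.Y522 Pool.Agent.Y522.NA

/-- inverse function theorem -/
theorem inv_fun {V : Type*} [NormedAddCommGroup V] [NormedSpace ℝ V] [CompleteSpace V]
    {Γ : V → V} {p₀ : V} (hΓ : ∀ᶠ p in 𝓝 p₀, ContDiffAt ℝ ∞ Γ p) (A : V ≃L[ℝ] V)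
    (hA : HasFDerivAt Γ (A : V →L[ℝ] V) p₀) :
    ∃ Ψ : V → V, (∀ᶠ b in 𝓝 (Γ p₀), ContDiffAt ℝ ∞ Ψ b) ∧ ∀ᶠ p in 𝓝 p₀, Ψ (Γ p) = p := by
  have hn : (∞ : WithTop ℕ∞) ≠ 0 := by simp
  have h0 : ContDiffAt ℝ ∞ Γ p₀ := hΓ.self_of_nhds
  set Φ := h0.toOpenPartialHomeomorph Γ hA hn with hΦ
  have hs : p₀ ∈ Φ.source := h0.mem_toOpenPartialHomeomorph_source hA hn
  have hcoe : (Φ : V → V) = Γ := h0.toOpenPartialHomeomorph_coe hA hn
  refine ⟨Φ.symm, ?_, ?_⟩
  · have hfd : fderiv ℝ Γ p₀ = A := hA.fderiv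
    have hc : ContinuousAt (fderiv ℝ Γ) p₀ :=
      (h0.fderiv_right (m := 0) (by simp)).continuousAt
    have h1 : ∀ᶠ p in 𝓝 p₀, ∃ B : V ≃L[ℝ] V, (B : V →L[ℝ] V) = fderiv ℝ Γ p := by
      have h2 : Set.range ((↑) : (V ≃L[ℝ] V) → V →L[ℝ] V) ∈ 𝓝 (fderiv ℝ Γ p₀) := by
        rw [hfd]
        exact ContinuousLinearEquiv.nhds A
      exact hc h2
    have h3 : Tendsto Φ.symm (𝓝 (Γ p₀)) (𝓝 p₀) := by
      have := Φ.tendsto_symm hs
      rwa [hcoe] at this
    have h4 : Φ.target ∈ 𝓝 (Γ p₀) := by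
      have := Φ.open_target.mem_nhds (Φ.map_source hs)
      rwa [hcoe] at this
    filter_upwards [h4, h3.eventually h1, h3.eventually hΓ] with b hb hB hd
    obtain ⟨B, hB⟩ := hB
    refine Φ.contDiffAt_symm (f₀' := B) hb ?_ ?_
    · rw [hcoe, hB]
      exact (hd.differentiableAt (by simp)).hasFDerivAt
    · rw [hcoe]
      exact hd
  · filter_upwards [Φ.open_source.mem_nhds hs] with p hp
    have := Φ.left_inv hp
    rwa [hcoe] at this

/-- at a nearest point the difference is orthogonal to the tangent space -/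
theorem orth {n q : ℕ} {h : E n → E q} {z : E n} {w : E q} (hd : DifferentiableAt ℝ h z)
    (hm : ∀ z', ‖w - h z‖ ≤ ‖w - h z'‖) (v : E n) : ⟪w - h z, fderiv ℝ h z v⟫ = 0 := by
  have h1 := (hd.hasFDerivAt.const_sub w).norm_sq
  have h2 : IsLocalMin (fun z' => ‖w - h z'‖ ^ 2) z :=
    Filter.Eventually.of_forall fun z' => pow_le_pow_left₀ (norm_nonneg _) (hm z') 2
  have h3 := h2.hasFDerivAt_eq_zero h1
  have h4 := congrArg (fun L : E n →L[ℝ] ℝ => L v) h3
  have h5 : ⟪h z, fderiv ℝ h z v⟫ - ⟪w, fderiv ℝ h z v⟫ = 0 := by simpa using h4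
  rw [inner_sub_left]
  linarith

/-- the nearest points are given by a smooth map -/
theorem loc_inv {n q : ℕ} {h : E n → E q} {z₀ : E n}
    (hh : ∀ᶠ z in 𝓝 z₀, ContDiffAt ℝ ∞ h z) (hinj : Injective (fderiv ℝ h z₀)) :
    ∃ k : E q → E n, (∀ᶠ w in 𝓝 (h z₀), ContDiffAt ℝ ∞ k w) ∧
      ∀ᶠ p in 𝓝 ((h z₀, z₀) : E q × E n), (∀ v, ⟪p.1 - h p.2, fderiv ℝ h p.2 v⟫ = 0) →
        p.2 = k p.1 := by
  set b := EuclideanSpace.basisFun (Fin n) ℝ with hb
  let G : E q × E n → E n := fun p => ∑ i, ⟪p.1 - h p.2, fderiv ℝ h p.2 (b i)⟫ • b i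
  let Γ : E q × E n → E q × E n := fun p => (p.1, G p)
  have h1 : ∀ᶠ p in 𝓝 ((h z₀, z₀) : E q × E n), ContDiffAt ℝ ∞ h p.2 :=
    (continuous_snd.tendsto ((h z₀, z₀) : E q × E n)).eventually hh
  have hsub : ∀ p : E q × E n, ContDiffAt ℝ ∞ h p.2 →
      ContDiffAt ℝ ∞ (fun p : E q × E n => p.1 - h p.2) p := fun p hp =>
    contDiffAt_fst.sub (hp.comp p contDiffAt_snd)
  have hder : ∀ (p : E q × E n) (i : Fin n), ContDiffAt ℝ ∞ h p.2 →
      ContDiffAt ℝ ∞ (fun p : E q × E n => fderiv ℝ h p.2 (b i)) p := by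
    intro p i hp
    have h2 : ContDiffAt ℝ ∞ (fderiv ℝ h) p.2 := hp.fderiv_right (m := ∞) (by simp)
    exact (h2.comp p contDiffAt_snd).clm_apply contDiffAt_const
  have hΓ : ∀ᶠ p in 𝓝 ((h z₀, z₀) : E q × E n), ContDiffAt ℝ ∞ Γ p := by
    filter_upwards [h1] with p hp
    refine contDiffAt_fst.prodMk ?_
    exact ContDiffAt.sum fun i _ => ((hsub p hp).inner ℝ (hder p i hp)).smul contDiffAt_const
  have hz₀ : ContDiffAt ℝ ∞ h z₀ := hh.self_of_nhds
  -- the derivative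
  have hd1 : HasFDerivAt (fun p : E q × E n => p.1 - h p.2)
      (ContinuousLinearMap.fst ℝ (E q) (E n) -
        (fderiv ℝ h z₀).comp (ContinuousLinearMap.snd ℝ (E q) (E n))) (h z₀, z₀) := by
    have h2 : HasFDerivAt h (fderiv ℝ h z₀) ((h z₀, z₀) : E q × E n).2 :=
      (hz₀.differentiableAt (by simp)).hasFDerivAt
    exact hasFDerivAt_fst.sub (h2.comp _ hasFDerivAt_snd)
  have hd2 : ∀ i : Fin n, HasFDerivAt (fun p : E q × E n => fderiv ℝ h p.2 (b i))
      (fderiv ℝ (fun p : E q × E n => fderiv ℝ h p.2 (b i)) (h z₀, z₀)) (h z₀, z₀) := fun i =>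
    ((hder (h z₀, z₀) i hz₀).differentiableAt (by simp)).hasFDerivAt
  have hd3 := fun i => ((hd1.inner ℝ (hd2 i)).smul_const (b i))
  have hd4 : HasFDerivAt Γ _ (h z₀, z₀) :=
    (hasFDerivAt_fst (𝕜 := ℝ) (p := ((h z₀, z₀) : E q × E n))).prodMk
      (HasFDerivAt.fun_sum (u := Finset.univ) fun i _ => hd3 i)
  have hLinj : Injective (fderiv ℝ Γ (h z₀, z₀)) := by
    rw [hd4.fderiv, injective_iff_map_eq_zero]
    rintro ⟨dw, dz⟩ hx
    rw [ContinuousLinearMap.prod_apply, Prod.mk_eq_zero] at hx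
    obtain ⟨hx1, hx2⟩ := hx
    have hdw : dw = 0 := hx1
    subst hdw
    rw [sum_apply] at hx2
    have h2 : ∀ i, ⟪fderiv ℝ h z₀ dz, fderiv ℝ h z₀ (b i)⟫ = 0 := by
      intro i
      have h3 := Fintype.linearIndependent_iff.1 b.orthonormal.linearIndependent _ hx2 i
      simpa using h3
    have h5 : fderiv ℝ h z₀ dz = 0 := by
      have h8 : fderiv ℝ h z₀ dz = ∑ i, b.repr dz i • fderiv ℝ h z₀ (b i) := by
        conv_lhs => rw [← b.sum_repr dz]
        rw [map_sum]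
        exact Finset.sum_congr rfl fun i _ => map_smul _ _ _
      have h7 : ⟪fderiv ℝ h z₀ dz, fderiv ℝ h z₀ dz⟫ = 0 := by
        calc ⟪fderiv ℝ h z₀ dz, fderiv ℝ h z₀ dz⟫
            = ⟪fderiv ℝ h z₀ dz, ∑ i, b.repr dz i • fderiv ℝ h z₀ (b i)⟫ := by rw [← h8]
          _ = ∑ i, b.repr dz i * ⟪fderiv ℝ h z₀ dz, fderiv ℝ h z₀ (b i)⟫ := by
              rw [inner_sum]
              exact Finset.sum_congr rfl fun i _ => real_inner_smul_right _ _ _
          _ = 0 := Finset.sum_eq_zero fun i _ => by rw [h2 i, mul_zero]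
      exact inner_self_eq_zero.1 h7
    have h6 : dz = 0 := by
      apply hinj
      rw [h5, map_zero]
    rw [h6]
    rfl
  let A : (E q × E n) ≃L[ℝ] (E q × E n) :=
    (LinearEquiv.ofInjectiveEndo (fderiv ℝ Γ (h z₀, z₀) : E q × E n →ₗ[ℝ] E q × E n)
      hLinj).toContinuousLinearEquiv
  have hA : HasFDerivAt Γ (A : E q × E n →L[ℝ] E q × E n) (h z₀, z₀) := by
    have h2 : (A : E q × E n →L[ℝ] E q × E n) = fderiv ℝ Γ (h z₀, z₀) := by
      ext x <;> rfl
    rw [h2]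
    exact hd4.differentiableAt.hasFDerivAt
  obtain ⟨Ψ, hΨ1, hΨ2⟩ := inv_fun hΓ A hA
  have hG0 : Γ (h z₀, z₀) = (h z₀, 0) := by
    change ((h z₀, G (h z₀, z₀)) : E q × E n) = (h z₀, 0)
    have : G (h z₀, z₀) = 0 := by
      change ∑ i, ⟪h z₀ - h z₀, fderiv ℝ h z₀ (b i)⟫ • b i = 0
      simp
    rw [this]
  rw [hG0] at hΨ1
  refine ⟨fun w => (Ψ (w, 0)).2, ?_, ?_⟩
  · have h2 : Tendsto (fun w : E q => ((w, 0) : E q × E n)) (𝓝 (h z₀)) (𝓝 (h z₀, 0)) :=
      (Continuous.prodMk continuous_id continuous_const).tendsto _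
    filter_upwards [h2.eventually hΨ1] with w hw
    exact contDiffAt_snd.comp w (hw.comp w (contDiffAt_id.prodMk contDiffAt_const))
  · filter_upwards [hΨ2] with p hp hv
    have h2 : Γ p = (p.1, 0) := by
      change ((p.1, G p) : E q × E n) = (p.1, 0)
      have : G p = 0 := by
        change ∑ i, ⟪p.1 - h p.2, fderiv ℝ h p.2 (b i)⟫ • b i = 0
        simp [hv]
      rw [this]
    rw [h2] at hp
    exact (congrArg Prod.snd hp).symm

/-- Compact nonempty manifolds have tubular data. -/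
theorem tub' (n : ℕ) (Y : Type) [TopologicalSpace Y] [T2Space Y] [CompactSpace Y]
    [ChartedSpace (E n) Y] [IsManifold (𝓡 n) ∞ Y] [Nonempty Y] :
    ∃ (q : ℕ) (e : Y → E q) (π : E q → Y), Tub n q Y e π := by
  obtain ⟨q, e, he, hemb, hinj⟩ := exists_embedding_euclidean_of_compact (I := 𝓡 n) (M := Y)
  have hmin : ∀ w : E q, ∃ y : Y, ∀ y', ‖w - e y‖ ≤ ‖w - e y'‖ := by
    intro w
    obtain ⟨y, -, hy⟩ := isCompact_univ.exists_isMinOn (univ_nonempty (α := Y))
      (f := fun y => ‖w - e y‖) (continuous_const.sub he.continuous).norm.continuousOn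
    exact ⟨y, fun y' => hy (mem_univ y')⟩
  choose π hπ using hmin
  have hinv : ∀ y, π (e y) = y := by
    intro y
    have h1 := hπ (e y) y
    rw [sub_self, norm_zero] at h1
    have h2 : e y - e (π (e y)) = 0 := norm_le_zero_iff.1 h1
    exact hemb.injective (sub_eq_zero.1 h2).symm
  have hcont : ∀ y, Tendsto π (𝓝 (e y)) (𝓝 y) := by
    intro y
    rw [hemb.isInducing.nhds_eq_comap y, tendsto_comap_iff]
    rw [tendsto_iff_norm_sub_tendsto_zero]
    have h1 : Tendsto (fun w : E q => 2 * ‖w - e y‖) (𝓝 (e y)) (𝓝 0) := by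
      have h2 : Continuous fun w : E q => 2 * ‖w - e y‖ := by fun_prop
      have h3 := h2.tendsto (e y)
      simpa using h3
    refine squeeze_zero (fun w => norm_nonneg _) (fun w => ?_) h1
    have h2 := hπ w y
    have h3 : (e ∘ π) w - e y = (w - e y) - (w - e (π w)) := by
      simp only [comp_apply]
      abel
    rw [h3]
    refine (norm_sub_le _ _).trans ?_
    linarith
  refine ⟨q, e, π, he, ?_, hinv⟩
  intro y
  set c := chartAt (E n) y with hc
  have hy : y ∈ c.source := mem_chart_source (E n) y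
  have hsymm : ContMDiffOn (𝓡 n) (𝓡 n) ∞ c.symm c.target := contMDiffOn_chart_symm
  have h1 : ContDiffOn ℝ ∞ (fun z => e (c.symm z)) c.target :=
    contMDiffOn_iff_contDiffOn.1 (he.comp_contMDiffOn hsymm)
  have hcy : c y ∈ c.target := c.map_source hy
  have h2 : ∀ z ∈ c.target, ContDiffAt ℝ ∞ (fun z => e (c.symm z)) z := fun z hz =>
    h1.contDiffAt (c.open_target.mem_nhds hz)
  have h3 : ∀ᶠ z in 𝓝 (c y), ContDiffAt ℝ ∞ (fun z => e (c.symm z)) z := by
    filter_upwards [c.open_target.mem_nhds hcy] with z hz using h2 z hz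
  have h4 : Injective (fderiv ℝ (fun z => e (c.symm z)) (c y)) := by
    have h5 : mfderiv (𝓡 n) (𝓡 q) e y = fderiv ℝ (fun z => e (c.symm z)) (c y) := by
      have hmd : MDifferentiableAt (𝓡 n) (𝓡 q) e y := he.mdifferentiableAt (by simp)
      have h6 : fderivWithin ℝ (writtenInExtChartAt (𝓡 n) (𝓡 q) y e) (range (𝓡 n))
          (extChartAt (𝓡 n) y y) = fderiv ℝ (fun z => e (c.symm z)) (c y) := by
        simp only [mfld_simps, writtenInExtChartAt, ← hc, comp_def, fderivWithin_univ] <;> rfl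
      exact hmd.mfderiv.trans h6
    rw [← h5]
    exact hinj y
  obtain ⟨k, hk1, hk2⟩ := loc_inv h3 h4
  have hcsy : c.symm (c y) = y := c.left_inv hy
  simp only [hcsy] at hk1 hk2
  have h5 : Tendsto (fun w => ((w, c (π w)) : E q × E n)) (𝓝 (e y)) (𝓝 (e y, c y)) := by
    refine Tendsto.prodMk_nhds tendsto_id ?_
    exact (c.continuousAt hy).tendsto.comp (hcont y)
  have h6 : ∀ᶠ w in 𝓝 (e y), π w ∈ c.source ∧ c (π w) = k w := by
    filter_upwards [h5.eventually hk2, (hcont y).eventually (c.open_source.mem_nhds hy)]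
      with w hw hws
    refine ⟨hws, hw ?_⟩
    have h7 : c.symm (c (π w)) = π w := c.left_inv hws
    have h8 := fun v => orth (h := fun z => e (c.symm z)) (z := c (π w)) (w := w)
      ((h2 _ (c.map_source hws)).differentiableAt (by simp)) (fun z' => by
        simp only [h7]
        exact hπ w _) v
    exact h8
  filter_upwards [h6.eventually_nhds, hk1] with w hw hkw
  have hw0 := hw.self_of_nhds
  have h7 : π =ᶠ[𝓝 w] fun w' => c.symm (k w') := by
    filter_upwards [hw] with w' hw'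
    rw [← hw'.2, c.left_inv hw'.1]
  refine ContMDiffAt.congr_of_eventuallyEq ?_ h7
  have h8 : ContMDiffAt (𝓡 n) (𝓡 n) ∞ c.symm (k w) := by
    refine hsymm.contMDiffAt (c.open_target.mem_nhds ?_)
    rw [← hw0.2]
    exact c.map_source hw0.1
  exact h8.comp w hkw.contMDiffAt

/-- Nonempty compact manifolds have tubular data. -/
theorem tub : StTub := fun n Y _ _ _ _ _ _ => tub' n Y

end Pool.Agent.Y391.NA
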